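import Mathlib

/-!
# Entrywise powers and graphs: definitions
-/

set_option autoImplicit false

open Matrix

namespace Pool.Agent.E8helper57.CE

/-- `x ^ β` with the convention `0 ^ β = 0` for every real `β` -/
noncomputable def hpow (x β : ℝ) : ℝ := if x = 0 then 0 else x ^ β

/-- the entrywise power `A^{∘β}` -/
noncomputable def hadPow {V : Type} (A : Matrix V V ℝ) (β : ℝ) : Matrix V V ℝ :=
  Matrix.of fun i j => hpow (A i j) β

/-- `ℙ_G`: the real positive semidefinite matrices `A` with `A i j = 0` for all different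
nonadjacent `i`, `j` -/
def PG {V : Type} (G : SimpleGraph V) : Set (Matrix V V ℝ) :=
  {A | A.PosSemidef ∧ ∀ i j, i ≠ j → ¬ G.Adj i j → A i j = 0}

/-- `ℙ_G([0,∞))` -/
def PG0 {V : Type} (G : SimpleGraph V) : Set (Matrix V V ℝ) :=
  {A | A ∈ PG G ∧ ∀ i j, 0 ≤ A i j}

/-- the real numbers `α` such that `A^{∘β} ∈ ℙ_G` for all `A ∈ ℙ_G([0,∞))` and all `β ≥ α` -/
def PowSet {V : Type} (G : SimpleGraph V) : Set ℝ :=
  {α | ∀ A ∈ PG0 G, ∀ β : ℝ, α ≤ β → hadPow A β ∈ PG G}

/-- `CE_H(G) = c`: `c` is the least element of `PowSet G` -/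
def IsCE {V : Type} (G : SimpleGraph V) (c : ℝ) : Prop := IsLeast (PowSet G) c

/-- `G'`: a new vertex `none` adjacent to every vertex of `G` -/
def cone {V : Type} (G : SimpleGraph V) : SimpleGraph (Option V) where
  Adj
    | none, none => False
    | none, some _ => True
    | some _, none => True
    | some u, some v => G.Adj u v
  symm := ⟨by
    rintro (_ | u) (_ | v) h
    · exact h
    · trivial
    · trivial
    · exact G.symm.symm _ _ h⟩
  loopless := ⟨by
    rintro (_ | u) h
    · exact h
    · exact G.loopless.irrefl _ h⟩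

/-- `K_{n+2}^{(1)}`: the complete graph on `n + 2` vertices with one edge removed -/
def KrMinus (n : ℕ) : SimpleGraph (Fin (n + 2)) :=
  (⊤ : SimpleGraph (Fin (n + 2))).deleteEdges {s(0, 1)}

end Pool.Agent.E8helper57.CE
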