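import Pool.Agent.E8helper57.CE.LowerMain

/-!
# Critical exponents of graphs with a small odd cycle transversal
-/

set_option autoImplicit false

open Matrix Finset

namespace Pool.Agent.E8helper57.CE

/-- a copy of `K_{n+3}^{(1)}` in `G` -/
def HasKM {V : Type} (G : SimpleGraph V) (n : ℕ) : Prop :=
  ∃ g : Fin (n + 1) ⊕ Fin 2 → V, Function.Injective g ∧
    ∀ a b, a ≠ b → ¬ (a = Sum.inr 0 ∧ b = Sum.inr 1) →
      ¬ (a = Sum.inr 1 ∧ b = Sum.inr 0) → G.Adj (g a) (g b)

theorem hasKM_of_isContained {V : Type} (G : SimpleGraph V) (n : ℕ)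
    (h : (KrMinus (n + 1)).IsContained G) : HasKM G n := by
  obtain ⟨f⟩ := h
  let e : Fin (n + 1) ⊕ Fin 2 → Fin (n + 1 + 2) :=
    Sum.elim (fun k => k.succ.succ) ![0, 1]
  have vl : ∀ k : Fin (n + 1), (e (Sum.inl k)).val = k.val + 2 := fun k => rfl
  have v0 : (e (Sum.inr 0)).val = 0 := rfl
  have v1 : (e (Sum.inr 1)).val = 1 := rfl
  have vr : ∀ q : Fin 2, (e (Sum.inr q)).val = q.val := by
    intro q
    fin_cases q
    · exact v0
    · exact v1
  have he : Function.Injective e := by
    rintro (a | a) (b | b) hab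
    · have := congrArg Fin.val hab
      rw [vl, vl] at this
      rw [Fin.ext (show a.val = b.val by omega)]
    · have := congrArg Fin.val hab
      rw [vl, vr] at this
      omega
    · have := congrArg Fin.val hab
      rw [vl, vr] at this
      omega
    · have := congrArg Fin.val hab
      rw [vr, vr] at this
      rw [Fin.ext this]
  refine ⟨fun p => f (e p), fun a b hab => he (f.injective hab), fun a b hab h1 h2 => ?_⟩
  apply f.toHom.map_rel
  have e0 : ∀ p, e p = 0 → p = Sum.inr 0 := fun p hp => he (by rw [hp]; simp [e])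
  have e1 : ∀ p, e p = 1 → p = Sum.inr 1 := fun p hp => he (by rw [hp]; simp [e])
  rw [KrMinus, SimpleGraph.deleteEdges_adj]
  refine ⟨fun h => hab (he h), fun h => ?_⟩
  rw [Set.mem_singleton_iff, Sym2.eq_iff] at h
  rcases h with ⟨ha, hb⟩ | ⟨ha, hb⟩
  · exact h1 ⟨e0 a ha, e1 b hb⟩
  · exact h2 ⟨e1 a ha, e0 b hb⟩

theorem hasKM_cone {V : Type} {G : SimpleGraph V} {n : ℕ} (h : HasKM G n) :
    HasKM (cone G) (n + 1) := by
  obtain ⟨g, hg, hadj⟩ := h
  let g' : Fin (n + 1 + 1) ⊕ Fin 2 → Option V :=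
    Sum.elim (Fin.cases none fun k => some (g (Sum.inl k))) fun q => some (g (Sum.inr q))
  have h0 : g' (Sum.inl 0) = none := rfl
  have hl : ∀ k : Fin (n + 1), g' (Sum.inl k.succ) = some (g (Sum.inl k)) := fun k => rfl
  have hr : ∀ q, g' (Sum.inr q) = some (g (Sum.inr q)) := fun q => rfl
  refine ⟨g', ?_, ?_⟩
  · rintro (a | a) (b | b) hab
    · refine Fin.cases ?_ (fun a => ?_) a (motive := fun a => g' (Sum.inl a) = g' (Sum.inl b) →
        (Sum.inl a : Fin (n + 1 + 1) ⊕ Fin 2) = Sum.inl b) hab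
      · refine Fin.cases (fun _ => rfl) (fun b h => ?_) b (motive := fun b =>
          g' (Sum.inl 0) = g' (Sum.inl b) → (Sum.inl 0 : Fin (n + 1 + 1) ⊕ Fin 2) = Sum.inl b)
        rw [h0, hl] at h
        exact absurd h (by simp)
      · refine Fin.cases (fun h => ?_) (fun b h => ?_) b (motive := fun b =>
          g' (Sum.inl a.succ) = g' (Sum.inl b) →
          (Sum.inl a.succ : Fin (n + 1 + 1) ⊕ Fin 2) = Sum.inl b)
        · rw [h0, hl] at h
          exact absurd h (by simp)
        · rw [hl, hl, Option.some_inj] at h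
          have := hg h
          rw [Sum.inl.injEq] at this
          rw [this]
    · refine Fin.cases (fun h => ?_) (fun a h => ?_) a (motive := fun a =>
        g' (Sum.inl a) = g' (Sum.inr b) → (Sum.inl a : Fin (n + 1 + 1) ⊕ Fin 2) = Sum.inr b) hab
      · rw [h0, hr] at h
        exact absurd h (by simp)
      · rw [hl, hr, Option.some_inj] at h
        exact absurd (hg h) (by simp)
    · refine Fin.cases (fun h => ?_) (fun b h => ?_) b (motive := fun b =>
        g' (Sum.inr a) = g' (Sum.inl b) → (Sum.inr a : Fin (n + 1 + 1) ⊕ Fin 2) = Sum.inl b) hab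
      · rw [h0, hr] at h
        exact absurd h (by simp)
      · rw [hl, hr, Option.some_inj] at h
        exact absurd (hg h) (by simp)
    · rw [hr, hr, Option.some_inj] at hab
      have := hg hab
      rw [Sum.inr.injEq] at this
      rw [this]
  · have key : ∀ p : Fin (n + 1 + 1) ⊕ Fin 2, p = Sum.inl 0 ∨
        ∃ p' : Fin (n + 1) ⊕ Fin 2, g' p = some (g p') ∧
          (∀ q, p' = Sum.inr q → p = Sum.inr q) ∧ (∀ k, p' = Sum.inl k → p = Sum.inl k.succ) := by
      rintro (k | q)
      · refine Fin.cases (Or.inl rfl) (fun k => Or.inr ⟨Sum.inl k, rfl, ?_, ?_⟩) k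
        · intro q hq
          exact absurd hq (by simp)
        · intro k' hk'
          rw [Sum.inl.injEq] at hk'
          rw [hk']
      · refine Or.inr ⟨Sum.inr q, rfl, ?_, ?_⟩
        · intro q' hq'
          rw [Sum.inr.injEq] at hq'
          rw [hq']
        · intro k hk
          exact absurd hk (by simp)
    intro a b hab h1 h2
    rcases key a with rfl | ⟨a', ha, ha1, ha2⟩
    · rcases key b with rfl | ⟨b', hb, hb1, hb2⟩
      · exact absurd rfl hab
      · rw [h0, hb]
        trivial
    · rcases key b with rfl | ⟨b', hb, hb1, hb2⟩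
      · rw [h0, ha]
        trivial
      · rw [ha, hb]
        refine hadj a' b' ?_ ?_ ?_
        · rintro rfl
          apply hab
          rcases a' with k | q
          · rw [ha2 k rfl, hb2 k rfl]
          · rw [ha1 q rfl, hb1 q rfl]
        · rintro ⟨rfl, rfl⟩
          exact h1 ⟨ha1 0 rfl, hb1 1 rfl⟩
        · rintro ⟨rfl, rfl⟩
          exact h2 ⟨ha1 1 rfl, hb1 0 rfl⟩

theorem lower_of_hasKM {V : Type} [Fintype V] (G : SimpleGraph V) (n : ℕ)
    (h : HasKM G n) (α : ℝ) (hα : α ∈ PowSet G) : ((n : ℝ) + 1) ≤ α := by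
  classical
  obtain ⟨g, hg, hadj⟩ := h
  exact lower G n g hg hadj α hα

theorem upper {V : Type} [Fintype V] (G : SimpleGraph V) (K : Finset V)
    (hK : ∃ col : V → Bool, ∀ i j, i ∉ K → j ∉ K → G.Adj i j → col i ≠ col j) :
    ((K.card : ℝ) + 1) ∈ PowSet G := by
  classical
  obtain ⟨col, hcol⟩ := hK
  rintro A ⟨⟨hpsd, hpat⟩, hnn⟩ β hβ
  have hPat : Pat K col A := fun i j hi hj hij hc =>
    hpat i j hij fun h => hcol i j hi hj h hc
  have h := main col K.card K rfl A A (β - 1) hpsd hnn hPat hpsd hnn (by linarith)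
  have hK0 : (0 : ℝ) ≤ K.card := Nat.cast_nonneg _
  have e : hadPow A β = Matrix.of fun i j => A i j * A i j ^ (β - 1) := by
    ext i j
    simp only [hadPow, of_apply, hpow]
    split_ifs with h0
    · rw [h0, zero_mul]
    · have hp : 0 < A i j := lt_of_le_of_ne (hnn i j) (Ne.symm h0)
      rw [Real.rpow_sub_one h0]
      field_simp
  refine ⟨e ▸ h, fun i j hij hna => ?_⟩
  simp only [hadPow, of_apply, hpow, hpat i j hij hna, if_true]

theorem upper_cone {V : Type} [Fintype V] (G : SimpleGraph V) (K : Finset V)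
    (hK : ∃ col : V → Bool, ∀ i j, i ∉ K → j ∉ K → G.Adj i j → col i ≠ col j) :
    ((K.card : ℝ) + 2) ∈ PowSet (cone G) := by
  classical
  obtain ⟨col, hcol⟩ := hK
  have h := upper (cone G) (insertNone K) ⟨fun o => o.elim false col, ?_⟩
  · rw [card_insertNone] at h
    push_cast at h
    rw [add_assoc] at h
    norm_num at h
    exact h
  · rintro (_ | i) (_ | j) hi hj hadj
    · exact absurd (none_mem_insertNone) hi
    · exact absurd (none_mem_insertNone) hi
    · exact absurd (none_mem_insertNone) hj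
    · rw [some_mem_insertNone] at hi hj
      exact hcol i j hi hj hadj

end Pool.Agent.E8helper57.CE
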