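import Mathlib

/-!
# Entrywise powers and dominating vertices (upper bound for the critical exponent)

Let `K` be a set of `n` vertices and let the other vertices be coloured with two colours. If `B` is
positive semidefinite with nonnegative entries, `B i j = 0` for different vertices `i`, `j` outside
`K` of the same colour, and `M` is positive semidefinite with nonnegative entries, then
`B ∘ M ^ δ` (entrywise product and power) is positive semidefinite for all real `δ ≥ n`.
-/

set_option autoImplicit false

open Matrix Finset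

namespace Pool.Agent.E8helper57.CE

variable {V : Type} [Fintype V]

/-- the quadratic form -/
def qf (A : Matrix V V ℝ) (z : V → ℝ) : ℝ := ∑ i, ∑ j, z i * A i j * z j

theorem psd_iff (A : Matrix V V ℝ) :
    A.PosSemidef ↔ (∀ i j, A i j = A j i) ∧ ∀ z, 0 ≤ qf A z := by
  have e : ∀ z : V → ℝ, star z ⬝ᵥ (A *ᵥ z) = qf A z := by
    intro z
    simp [qf, dotProduct, mulVec, mul_sum, mul_assoc]
  rw [posSemidef_iff_dotProduct_mulVec]
  constructor
  · rintro ⟨h1, h2⟩
    refine ⟨fun i j => ?_, fun z => ?_⟩
    · have := h1.apply i j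
      simpa using this.symm
    · rw [← e]
      exact h2 z
  · rintro ⟨h1, h2⟩
    refine ⟨?_, fun z => ?_⟩
    · ext i j
      simp [h1 i j]
    · rw [e]
      exact h2 z

theorem minor {M : Matrix V V ℝ} (hM : M.PosSemidef) (i j : V) :
    M i j ^ 2 ≤ M i i * M j j := by
  have h := (hM.submatrix ![i, j]).det_nonneg
  rw [det_fin_two] at h
  simp only [submatrix_apply, Matrix.cons_val_zero, Matrix.cons_val_one] at h
  have := ((psd_iff M).1 hM).1 i j
  rw [← this] at h
  nlinarith

omit [Fintype V] in
theorem diag_nonneg {M : Matrix V V ℝ} (hM : M.PosSemidef) (i : V) : 0 ≤ M i i := hM.diag_nonneg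

variable [DecidableEq V]

theorem qf_add_single {B : Matrix V V ℝ} (hB : ∀ i j, B i j = B j i) (z : V → ℝ) (a : V) (t : ℝ) :
    qf B (fun i => z i + if i = a then t else 0) =
      qf B z + 2 * t * (∑ j, B a j * z j) + t ^ 2 * B a a := by
  unfold qf
  have e : ∀ i, ∑ j, (z i + if i = a then t else 0) * B i j * (z j + if j = a then t else 0) =
      (∑ j, z i * B i j * z j) + z i * B i a * t + (if i = a then t * ∑ j, B a j * z j else 0) +
        (if i = a then t * B a a * t else 0) := by
    intro i
    have e1 : ∀ j, (z i + if i = a then t else 0) * B i j * (z j + if j = a then t else 0) =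
        z i * B i j * z j + (if j = a then z i * B i j * t else 0) +
          ((if i = a then t else 0) * (B i j * z j)) +
          (if j = a then (if i = a then t else 0) * B i j * t else 0) := by
      intro j
      split_ifs <;> ring
    simp only [e1, sum_add_distrib, sum_ite_eq', mem_univ, if_true, ← mul_sum]
    split_ifs with h
    · subst h
      ring
    · ring
  simp only [e, sum_add_distrib, sum_ite_eq', mem_univ, if_true]
  have e2 : ∑ i, z i * B i a * t = t * ∑ j, B a j * z j := by
    rw [mul_sum]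
    refine sum_congr rfl fun i _ => ?_
    rw [hB i a]
    ring
  rw [e2]
  ring

/-- `e_a^T B z` squared is at most `B a a` times the form of `B` at `z` -/
theorem cs {B : Matrix V V ℝ} (hB : B.PosSemidef) (z : V → ℝ) (a : V) :
    (∑ j, B a j * z j) ^ 2 ≤ B a a * qf B z := by
  obtain ⟨h1, h2⟩ := (psd_iff B).1 hB
  rcases (diag_nonneg hB a).eq_or_lt with h0 | h0
  · have hz : ∀ j, B a j = 0 := by
      intro j
      have := minor hB a j
      rw [← h0, zero_mul] at this
      exact pow_eq_zero_iff (two_ne_zero) |>.1 (le_antisymm this (sq_nonneg _))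
    simp [hz]
  · have h := h2 (fun i => z i + if i = a then -(∑ j, B a j * z j) / B a a else 0)
    rw [qf_add_single h1] at h
    have h3 := mul_nonneg h0.le h
    have e : B a a * (qf B z + 2 * (-(∑ j, B a j * z j) / B a a) * (∑ j, B a j * z j) +
        (-(∑ j, B a j * z j) / B a a) ^ 2 * B a a) =
        B a a * qf B z - (∑ j, B a j * z j) ^ 2 := by
      field_simp
      ring
    rw [e] at h3
    linarith

/-- the Schur complement, multiplied by `B a a` -/
theorem schur {B : Matrix V V ℝ} (hB : B.PosSemidef) (a : V) :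
    (Matrix.of fun i j => B a a * B i j - B a i * B a j : Matrix V V ℝ).PosSemidef := by
  obtain ⟨h1, -⟩ := (psd_iff B).1 hB
  rw [psd_iff]
  refine ⟨fun i j => ?_, fun z => ?_⟩
  · simp only [of_apply]
    rw [h1 i j]
    ring
  · have h := cs hB z a
    have e : qf (Matrix.of fun i j => B a a * B i j - B a i * B a j : Matrix V V ℝ) z =
        B a a * qf B z - (∑ j, B a j * z j) ^ 2 := by
      unfold qf
      rw [sq, sum_mul_sum, mul_sum, ← sum_sub_distrib]
      refine sum_congr rfl fun i _ => ?_
      rw [mul_sum, ← sum_sub_distrib]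
      refine sum_congr rfl fun j _ => ?_
      simp only [of_apply]
      ring
    rw [e]
    linarith

/-- the pattern of zeros -/
def Pat (K : Finset V) (col : V → Bool) (B : Matrix V V ℝ) : Prop :=
  ∀ i j, i ∉ K → j ∉ K → i ≠ j → col i = col j → B i j = 0

omit [DecidableEq V] in
theorem base {col : V → Bool} {B M : Matrix V V ℝ} {δ : ℝ} (hB : B.PosSemidef)
    (hB0 : ∀ i j, 0 ≤ B i j) (hP : Pat ∅ col B) (hM : M.PosSemidef) (hM0 : ∀ i j, 0 ≤ M i j)
    (hδ : 0 ≤ δ) : (Matrix.of fun i j => B i j * M i j ^ δ : Matrix V V ℝ).PosSemidef := by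
  obtain ⟨b1, b2⟩ := (psd_iff B).1 hB
  obtain ⟨m1, -⟩ := (psd_iff M).1 hM
  rw [psd_iff]
  refine ⟨fun i j => ?_, fun z => ?_⟩
  · simp only [of_apply]
    rw [b1 i j, m1 i j]
  · let s : V → ℝ := fun i => if col i then 1 else -1
    let y : V → ℝ := fun i => s i * |z i| * √(M i i ^ δ)
    refine (b2 y).trans ?_
    unfold qf
    refine sum_le_sum fun i _ => sum_le_sum fun j _ => ?_
    simp only [of_apply]
    have hd : ∀ i, 0 ≤ M i i ^ δ := fun i => Real.rpow_nonneg (hM0 i i) δ
    rcases eq_or_ne i j with rfl | hij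
    · have hs : s i * s i = 1 := by
        simp only [s]
        split_ifs <;> norm_num
      have h1 : √(M i i ^ δ) * √(M i i ^ δ) = M i i ^ δ := Real.mul_self_sqrt (hd i)
      have h2 : |z i| * |z i| = z i * z i := abs_mul_abs_self _
      apply le_of_eq
      simp only [y]
      calc s i * |z i| * √(M i i ^ δ) * B i i * (s i * |z i| * √(M i i ^ δ))
          = (s i * s i) * (|z i| * |z i|) * B i i * (√(M i i ^ δ) * √(M i i ^ δ)) := by ring
        _ = _ := by
            rw [hs, h1, h2]
            ring
    · by_cases hc : col i = col j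
      · rw [hP i j (notMem_empty _) (notMem_empty _) hij hc]
        simp
      · have hs : s i * s j = -1 := by
          simp only [s]
          cases hi : col i <;> cases hj : col j <;> simp_all
        have h1 : M i j ^ δ ≤ √(M i i ^ δ) * √(M j j ^ δ) := by
          rw [← Real.sqrt_mul (hd i)]
          apply Real.le_sqrt_of_sq_le
          have h2 := minor hM i j
          have h3 : (M i j ^ δ) ^ 2 = (M i j ^ 2) ^ δ := by
            rw [← Real.rpow_natCast (M i j ^ δ) 2, ← Real.rpow_natCast (M i j) 2,
              ← Real.rpow_mul (hM0 i j), ← Real.rpow_mul (hM0 i j), mul_comm]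
          rw [h3, ← Real.mul_rpow (hM0 i i) (hM0 j j)]
          exact Real.rpow_le_rpow (sq_nonneg _) h2 hδ
        have h4 : 0 ≤ B i j * (|z i| * |z j|) :=
          mul_nonneg (hB0 i j) (mul_nonneg (abs_nonneg _) (abs_nonneg _))
        have h5 : 0 ≤ B i j * M i j ^ δ := mul_nonneg (hB0 i j) (Real.rpow_nonneg (hM0 i j) δ)
        have h6 : -(|z i| * |z j|) ≤ z i * z j := by
          rw [← abs_mul]
          exact neg_abs_le _
        simp only [y]
        calc s i * |z i| * √(M i i ^ δ) * B i j * (s j * |z j| * √(M j j ^ δ))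
            = (s i * s j) * (B i j * (|z i| * |z j|)) * (√(M i i ^ δ) * √(M j j ^ δ)) := by ring
          _ = -((B i j * (|z i| * |z j|)) * (√(M i i ^ δ) * √(M j j ^ δ))) := by
              rw [hs]
              ring
          _ ≤ -((B i j * (|z i| * |z j|)) * M i j ^ δ) :=
              neg_le_neg (mul_le_mul_of_nonneg_left h1 h4)
          _ = (B i j * M i j ^ δ) * (-(|z i| * |z j|)) := by ring
          _ ≤ (B i j * M i j ^ δ) * (z i * z j) := mul_le_mul_of_nonneg_left h6 h5
          _ = z i * (B i j * M i j ^ δ) * z j := by ring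

/-- `B` with the row and the column of `a` replaced by zeros -/
def bar (a : V) (B : Matrix V V ℝ) : Matrix V V ℝ :=
  Matrix.of fun i j => if i = a ∨ j = a then 0 else B i j

theorem bar_psd {B : Matrix V V ℝ} (hB : B.PosSemidef) (a : V) : (bar a B).PosSemidef := by
  obtain ⟨h1, h2⟩ := (psd_iff B).1 hB
  rw [psd_iff]
  refine ⟨fun i j => ?_, fun z => ?_⟩
  · simp only [bar, of_apply]
    rw [h1 i j]
    by_cases hi : i = a <;> by_cases hj : j = a <;> simp [hi, hj]
  · refine (h2 fun i => if i = a then 0 else z i).trans (le_of_eq ?_)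
    unfold qf
    refine sum_congr rfl fun i _ => sum_congr rfl fun j _ => ?_
    simp only [bar, of_apply]
    by_cases hi : i = a <;> by_cases hj : j = a <;> simp [hi, hj]

omit [Fintype V] in
theorem bar_nonneg {B : Matrix V V ℝ} (hB : ∀ i j, 0 ≤ B i j) (a : V) (i j : V) :
    0 ≤ bar a B i j := by
  simp only [bar, of_apply]
  split_ifs
  · exact le_rfl
  · exact hB i j

omit [Fintype V] in
theorem bar_pat {K : Finset V} {col : V → Bool} {B : Matrix V V ℝ} (hP : Pat K col B) (a : V) :
    Pat (K.erase a) col (bar a B) := by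
  intro i j hi hj hij hc
  simp only [bar, of_apply]
  split_ifs with h
  · rfl
  · push Not at h
    exact hP i j (fun hh => hi (mem_erase.2 ⟨h.1, hh⟩)) (fun hh => hj (mem_erase.2 ⟨h.2, hh⟩))
      hij hc

theorem step {K : Finset V} {col : V → Bool} {a : V} {B M : Matrix V V ℝ} {δ : ℝ} (hδ : 1 ≤ δ)
    (IH : ∀ (M : Matrix V V ℝ) (ε : ℝ), M.PosSemidef → (∀ i j, 0 ≤ M i j) → δ - 1 ≤ ε →
      (Matrix.of fun i j => bar a B i j * M i j ^ ε : Matrix V V ℝ).PosSemidef)
    (hB : B.PosSemidef) (hB0 : ∀ i j, 0 ≤ B i j) (hM : M.PosSemidef) (hM0 : ∀ i j, 0 ≤ M i j) :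
    (Matrix.of fun i j => B i j * M i j ^ δ : Matrix V V ℝ).PosSemidef := by
  obtain ⟨b1, b2⟩ := (psd_iff B).1 hB
  obtain ⟨m1, -⟩ := (psd_iff M).1 hM
  have hzero : ∀ {A : Matrix V V ℝ}, A.PosSemidef → A a a = 0 → ∀ j, A a j = 0 := by
    intro A hA h0 j
    have := minor hA a j
    rw [h0, zero_mul] at this
    exact pow_eq_zero_iff (two_ne_zero) |>.1 (le_antisymm this (sq_nonneg _))
  -- if the row of `a` in the product vanishes
  have hrow : (∀ j, B a j * M a j ^ δ = 0) →
      (Matrix.of fun i j => B i j * M i j ^ δ : Matrix V V ℝ).PosSemidef := by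
    intro h
    have := IH M δ hM hM0 (by linarith)
    convert this using 1
    ext i j
    simp only [of_apply, bar]
    split_ifs with hh
    · rcases hh with rfl | rfl
      · rw [h j, zero_mul]
      · rw [b1 i j, m1 i j, h i, zero_mul]
    · rfl
  rcases (diag_nonneg hB a).eq_or_lt with hb | hb
  · exact hrow fun j => by rw [hzero hB hb.symm j, zero_mul]
  rcases (diag_nonneg hM a).eq_or_lt with hp | hp
  · exact hrow fun j => by rw [hzero hM hp.symm j, Real.zero_rpow (by linarith), mul_zero]
  -- the main case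
  set S : Matrix V V ℝ := Matrix.of fun i j => M a a * M i j - M a i * M a j with hS
  have hSpsd : S.PosSemidef := schur hM a
  have hRpsd : (Matrix.of fun i j => M a i * M a j : Matrix V V ℝ).PosSemidef := by
    rw [psd_iff]
    refine ⟨fun i j => by simp only [of_apply]; ring, fun z => ?_⟩
    have e : qf (Matrix.of fun i j => M a i * M a j : Matrix V V ℝ) z =
        (∑ i, z i * M a i) ^ 2 := by
      unfold qf
      rw [sq, sum_mul_sum]
      refine sum_congr rfl fun i _ => sum_congr rfl fun j _ => ?_
      simp only [of_apply]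
      ring
    rw [e]
    positivity
  rw [psd_iff]
  refine ⟨fun i j => by simp only [of_apply]; rw [b1 i j, m1 i j], fun z => ?_⟩
  set C : Matrix V V ℝ := Matrix.of fun i j => B i j * M i j ^ δ with hC
  let N : ℝ → V → V → ℝ := fun t i j => t * (M a a * M i j) + (1 - t) * (M a i * M a j)
  let φ : ℝ → ℝ := fun t => ∑ i, ∑ j, z i * (bar a B i j * N t i j ^ δ) * z j
  have hN0 : ∀ t ∈ Set.Icc (0 : ℝ) 1, ∀ i j, 0 ≤ N t i j := by
    intro t ht i j
    have h1 := mul_nonneg hp.le (hM0 i j)
    have h2 := mul_nonneg (hM0 a i) (hM0 a j)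
    exact add_nonneg (mul_nonneg ht.1 h1) (mul_nonneg (sub_nonneg.2 ht.2) h2)
  have hNpsd : ∀ t ∈ Set.Icc (0 : ℝ) 1, (Matrix.of fun i j => N t i j : Matrix V V ℝ).PosSemidef := by
    intro t ht
    have h1 := (hM.smul (mul_nonneg ht.1 hp.le)).add (hRpsd.smul (sub_nonneg.2 ht.2))
    convert h1 using 1
    ext i j
    simp only [of_apply, N, Matrix.add_apply, Matrix.smul_apply, smul_eq_mul]
    ring
  have hder : ∀ t, HasDerivAt φ (∑ i, ∑ j, z i * (bar a B i j *
      ((M a a * M i j - M a i * M a j) * δ * N t i j ^ (δ - 1))) * z j) t := by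
    intro t
    refine HasDerivAt.fun_sum fun i _ => HasDerivAt.fun_sum fun j _ => ?_
    have h1 : HasDerivAt (fun t => N t i j) (M a a * M i j - M a i * M a j) t := by
      have h2 := ((hasDerivAt_id t).mul_const (M a a * M i j)).add
        (((hasDerivAt_id t).const_sub 1).mul_const (M a i * M a j))
      exact h2.congr_deriv (by ring)
    exact (((h1.rpow_const (Or.inr hδ)).const_mul (bar a B i j)).const_mul (z i)).mul_const (z j)
  have hmono : MonotoneOn φ (Set.Icc 0 1) := by
    refine monotoneOn_of_deriv_nonneg (convex_Icc 0 1)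
      (fun t _ => (hder t).continuousAt.continuousWithinAt)
      (fun t _ => (hder t).differentiableAt.differentiableWithinAt) fun t ht => ?_
    rw [(hder t).deriv]
    have ht' := interior_subset ht
    have h1 := IH (Matrix.of fun i j => N t i j) (δ - 1) (hNpsd t ht')
      (fun i j => hN0 t ht' i j) le_rfl
    have h2 := ((psd_iff _).1 (h1.hadamard hSpsd)).2 z
    have h3 : (∑ i, ∑ j, z i * (bar a B i j *
      ((M a a * M i j - M a i * M a j) * δ * N t i j ^ (δ - 1))) * z j) =
        δ * qf ((Matrix.of fun i j => bar a B i j * (Matrix.of fun i j => N t i j : Matrix V V ℝ) i j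
          ^ (δ - 1) : Matrix V V ℝ) ⊙ S) z := by
      unfold qf
      rw [mul_sum]
      refine sum_congr rfl fun i _ => ?_
      rw [mul_sum]
      refine sum_congr rfl fun j _ => ?_
      simp only [hadamard_apply, of_apply, hS]
      ring
    rw [h3]
    exact mul_nonneg (by linarith) h2
  have h01 : φ 0 ≤ φ 1 := hmono (by simp) (by simp) zero_le_one
  have hE1 : 0 ≤ qf (Matrix.of fun i j => B a a * B i j - B a i * B a j : Matrix V V ℝ)
      (fun i => z i * M a i ^ δ) := ((psd_iff _).1 (schur hB a)).2 _
  have hpδ : 0 < M a a ^ δ := Real.rpow_pos_of_pos hp δ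
  have key : (B a a * M a a ^ δ) * qf C z = (∑ j, C a j * z j) ^ 2 +
      qf (Matrix.of fun i j => B a a * B i j - B a i * B a j : Matrix V V ℝ)
        (fun i => z i * M a i ^ δ) + B a a * (φ 1 - φ 0) := by
    simp only [φ]
    unfold qf
    rw [sq, sum_mul_sum, ← sum_sub_distrib, mul_sum, mul_sum, ← sum_add_distrib,
      ← sum_add_distrib]
    refine sum_congr rfl fun i _ => ?_
    rw [← sum_sub_distrib, mul_sum, mul_sum, ← sum_add_distrib, ← sum_add_distrib]
    refine sum_congr rfl fun j _ => ?_
    have e1 : N 1 i j = M a a * M i j := by simp only [N]; ring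
    have e0 : N 0 i j = M a i * M a j := by simp only [N]; ring
    rw [e1, e0, Real.mul_rpow hp.le (hM0 i j), Real.mul_rpow (hM0 a i) (hM0 a j)]
    simp only [of_apply, hC, bar]
    by_cases hi : i = a
    · subst hi
      simp only [true_or, if_true]
      ring
    · by_cases hj : j = a
      · subst hj
        simp only [or_true, if_true]
        rw [b1 i j, m1 i j]
        ring
      · simp only [hi, hj, or_self, if_false]
        ring
  have hpos : 0 < B a a * M a a ^ δ := mul_pos hb hpδ
  have : 0 ≤ (B a a * M a a ^ δ) * qf C z := by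
    rw [key]
    have := mul_nonneg hb.le (sub_nonneg.2 h01)
    positivity
  exact nonneg_of_mul_nonneg_right this hpos

/-- **Main inequality.** -/
theorem main (col : V → Bool) : ∀ (n : ℕ) (K : Finset V), K.card = n → ∀ (B M : Matrix V V ℝ)
    (δ : ℝ), B.PosSemidef → (∀ i j, 0 ≤ B i j) → Pat K col B → M.PosSemidef →
    (∀ i j, 0 ≤ M i j) → (n : ℝ) ≤ δ →
    (Matrix.of fun i j => B i j * M i j ^ δ : Matrix V V ℝ).PosSemidef := by
  intro n
  induction n with
  | zero =>
    intro K hK B M δ hB hB0 hP hM hM0 hδ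
    rw [card_eq_zero] at hK
    subst hK
    exact base hB hB0 hP hM hM0 (by simpa using hδ)
  | succ n ih =>
    intro K hK B M δ hB hB0 hP hM hM0 hδ
    push_cast at hδ
    obtain ⟨a, ha⟩ : K.Nonempty := by
      rw [← card_pos]
      omega
    have hn : (0 : ℝ) ≤ n := Nat.cast_nonneg n
    refine step (K := K) (col := col) (a := a) (by linarith) ?_ hB hB0 hM hM0
    intro M' ε hM' hM0' hε
    exact ih (K.erase a) (by rw [card_erase_of_mem ha, hK]; rfl) (bar a B) M' ε (bar_psd hB a)
      (bar_nonneg hB0 a) (bar_pat hP a) hM' hM0' (by linarith)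

end Pool.Agent.E8helper57.CE
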