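import Pool.Agent.E8helper57.CE.Defs
import Pool.Agent.E8helper57.CE.Upper

/-!
# Lower bound for the critical exponent
-/

set_option autoImplicit false

open Matrix Finset

namespace Pool.Agent.E8helper57.CE

/-- A vector orthogonal to the powers `1, …, m` of `1, 2, 4, …, 2 ^ m`, but not to the power `β`. -/
theorem exists_z (m : ℕ) (β : ℝ) (hβ : (m : ℝ) < β) : ∃ z : Fin (m + 1) → ℝ,
    (∀ j : ℕ, 1 ≤ j → j ≤ m → ∑ k, z k * ((2 : ℝ) ^ (k : ℕ)) ^ j = 0) ∧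
    ∑ k, z k * ((2 : ℝ) ^ (k : ℕ)) ^ β = 1 := by
  let x : Fin (m + 1) → ℝ := fun j => if (j : ℕ) < m then (2 : ℝ) ^ ((j : ℕ) + 1) else (2 : ℝ) ^ β
  have hx : Function.Injective x := by
    have hlt : ∀ a : ℕ, a < m → (2 : ℝ) ^ (a + 1) < (2 : ℝ) ^ β := by
      intro a ha
      rw [← Real.rpow_natCast]
      apply Real.rpow_lt_rpow_of_exponent_lt (by norm_num)
      have : ((a + 1 : ℕ) : ℝ) ≤ m := by exact_mod_cast ha
      linarith
    intro a b hab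
    simp only [x] at hab
    split_ifs at hab with h1 h2 h2
    · have := pow_right_injective₀ (by norm_num : (0 : ℝ) < 2) (by norm_num) hab
      exact Fin.ext (by simpa using this)
    · exact absurd hab (hlt _ h1).ne
    · exact absurd hab (hlt _ h2).ne'
    · exact Fin.ext (by omega)
  have hdet : (vandermonde x).det ≠ 0 := det_vandermonde_ne_zero_iff.2 hx
  have hunit : IsUnit (vandermonde x).det := isUnit_iff_ne_zero.2 hdet
  obtain ⟨z, hz⟩ : ∃ z, (vandermonde x) *ᵥ z = Pi.single (Fin.last m) (1 : ℝ) :=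
    ⟨(vandermonde x)⁻¹ *ᵥ Pi.single (Fin.last m) (1 : ℝ), by
      rw [mulVec_mulVec, mul_nonsing_inv _ hunit, one_mulVec]⟩
  refine ⟨z, fun j h1 h2 => ?_, ?_⟩
  · have h := congrFun hz ⟨j - 1, by omega⟩
    rw [Pi.single_eq_of_ne (by
      intro h
      have := congrArg Fin.val h
      simp at this
      omega)] at h
    rw [← h]
    simp only [mulVec, dotProduct, vandermonde_apply, x]
    rw [if_pos (show j - 1 < m by omega)]
    refine sum_congr rfl fun k _ => ?_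
    rw [show j - 1 + 1 = j by omega, ← pow_mul, ← pow_mul, mul_comm j, mul_comm]
  · have h := congrFun hz (Fin.last m)
    rw [Pi.single_eq_same] at h
    rw [← h]
    simp only [mulVec, dotProduct, vandermonde_apply, x]
    rw [if_neg (show ¬ (Fin.last m : ℕ) < m by simp)]
    refine sum_congr rfl fun k _ => ?_
    rw [← Real.rpow_natCast (2 ^ β), ← Real.rpow_mul (by norm_num), mul_comm β,
      Real.rpow_mul (by norm_num), Real.rpow_natCast, mul_comm]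

/-- The form of `(1 + ε q_k q_l) ^ β - 1`. -/
theorem form_le (m : ℕ) (β : ℝ) (z : Fin (m + 1) → ℝ)
    (hz : ∀ j : ℕ, 1 ≤ j → j ≤ m → ∑ k, z k * ((2 : ℝ) ^ (k : ℕ)) ^ j = 0) :
    ∃ C : ℝ, 0 ≤ C ∧ ∀ ε : ℝ, 0 < ε → ε * (4 : ℝ) ^ m ≤ 1 →
      ∑ k, ∑ l, z k * z l * (1 + ε * ((2 : ℝ) ^ (k : ℕ) * 2 ^ (l : ℕ))) ^ β ≤
        (∑ k, z k) ^ 2 + C * ε ^ (m + 1) := by
  have hcd : ContDiffOn ℝ ((m : ℕ∞) + 1 : ℕ∞) (fun t : ℝ => (1 + t) ^ β) (Set.Icc 0 1) := by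
    apply ContDiffOn.rpow_const_of_ne
    · exact (contDiff_const.add contDiff_id).contDiffOn
    · intro t ht
      have := ht.1
      positivity
  obtain ⟨C, hC⟩ := exists_taylor_mean_remainder_bound (f := fun t : ℝ => (1 + t) ^ β)
    (n := m) zero_le_one (by exact_mod_cast hcd)
  set c : ℕ → ℝ := fun j => (j.factorial : ℝ)⁻¹ *
    iteratedDerivWithin j (fun t : ℝ => (1 + t) ^ β) (Set.Icc 0 1) 0 with hc
  have hP : ∀ t ∈ Set.Icc (0 : ℝ) 1, (1 + t) ^ β ≤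
      (∑ j ∈ range (m + 1), c j * t ^ j) + |C| * t ^ (m + 1) ∧
      (∑ j ∈ range (m + 1), c j * t ^ j) - |C| * t ^ (m + 1) ≤ (1 + t) ^ β := by
    intro t ht
    have h := hC t ht
    rw [taylor_within_apply, Real.norm_eq_abs, abs_le] at h
    have e : ∑ k ∈ range (m + 1), ((k.factorial : ℝ)⁻¹ * (t - 0) ^ k) •
        iteratedDerivWithin k (fun t : ℝ => (1 + t) ^ β) (Set.Icc 0 1) 0 =
        ∑ j ∈ range (m + 1), c j * t ^ j := by
      refine sum_congr rfl fun k _ => ?_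
      rw [hc, smul_eq_mul, sub_zero]
      ring
    rw [e, sub_zero] at h
    have h1 : C * t ^ (m + 1) ≤ |C| * t ^ (m + 1) :=
      mul_le_mul_of_nonneg_right (le_abs_self C) (pow_nonneg ht.1 _)
    constructor <;> linarith [h.1, h.2]
  have hc0 : c 0 = 1 := by
    simp [hc]
  refine ⟨|C| * ((4 : ℝ) ^ m) ^ (m + 1) * (∑ k, |z k|) ^ 2, by positivity, ?_⟩
  intro ε hε hε1
  have hq : ∀ k l : Fin (m + 1), (2 : ℝ) ^ (k : ℕ) * 2 ^ (l : ℕ) ≤ 4 ^ m := by
    intro k l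
    have h1 : (2 : ℝ) ^ (k : ℕ) ≤ 2 ^ m := pow_le_pow_right₀ (by norm_num) (by omega)
    have h2 : (2 : ℝ) ^ (l : ℕ) ≤ 2 ^ m := pow_le_pow_right₀ (by norm_num) (by omega)
    calc (2 : ℝ) ^ (k : ℕ) * 2 ^ (l : ℕ) ≤ 2 ^ m * 2 ^ m :=
          mul_le_mul h1 h2 (by positivity) (by positivity)
      _ = 4 ^ m := by
          rw [← mul_pow]
          norm_num
  have hterm : ∀ k l : Fin (m + 1), z k * z l * (1 + ε * ((2 : ℝ) ^ (k : ℕ) * 2 ^ (l : ℕ))) ^ β ≤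
      z k * z l * (∑ j ∈ range (m + 1), c j * (ε * ((2 : ℝ) ^ (k : ℕ) * 2 ^ (l : ℕ))) ^ j) +
        |z k| * |z l| * (|C| * (ε * 4 ^ m) ^ (m + 1)) := by
    intro k l
    have ht0 : 0 ≤ ε * ((2 : ℝ) ^ (k : ℕ) * 2 ^ (l : ℕ)) := by positivity
    have ht1 : ε * ((2 : ℝ) ^ (k : ℕ) * 2 ^ (l : ℕ)) ≤ ε * 4 ^ m :=
      mul_le_mul_of_nonneg_left (hq k l) hε.le
    obtain ⟨h1, h2⟩ := hP _ ⟨ht0, ht1.trans hε1⟩
    have h3 : |C| * (ε * ((2 : ℝ) ^ (k : ℕ) * 2 ^ (l : ℕ))) ^ (m + 1) ≤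
        |C| * (ε * 4 ^ m) ^ (m + 1) :=
      mul_le_mul_of_nonneg_left (pow_le_pow_left₀ ht0 ht1 _) (abs_nonneg _)
    have h4 : |(1 + ε * ((2 : ℝ) ^ (k : ℕ) * 2 ^ (l : ℕ))) ^ β -
        ∑ j ∈ range (m + 1), c j * (ε * ((2 : ℝ) ^ (k : ℕ) * 2 ^ (l : ℕ))) ^ j| ≤
        |C| * (ε * 4 ^ m) ^ (m + 1) := by
      rw [abs_le]
      constructor <;> linarith
    have h5 := mul_le_mul_of_nonneg_left h4 (abs_nonneg (z k * z l))
    rw [← abs_mul] at h5
    have h6 := (le_abs_self _).trans h5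
    rw [abs_mul (z k)] at h6
    linarith
  refine (sum_le_sum fun k _ => sum_le_sum fun l _ => hterm k l).trans (le_of_eq ?_)
  simp only [sum_add_distrib]
  congr 1
  · -- the polynomial part
    have e1 : ∀ j, ∑ k : Fin (m + 1), ∑ l : Fin (m + 1),
        z k * z l * (c j * (ε * ((2 : ℝ) ^ (k : ℕ) * 2 ^ (l : ℕ))) ^ j) =
        c j * ε ^ j * (∑ k, z k * ((2 : ℝ) ^ (k : ℕ)) ^ j) ^ 2 := by
      intro j
      rw [sq, sum_mul_sum, mul_sum]
      refine sum_congr rfl fun k _ => ?_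
      rw [mul_sum]
      refine sum_congr rfl fun l _ => ?_
      rw [mul_pow, mul_pow]
      ring
    have e2 : ∑ k : Fin (m + 1), ∑ l : Fin (m + 1), z k * z l *
        (∑ j ∈ range (m + 1), c j * (ε * ((2 : ℝ) ^ (k : ℕ) * 2 ^ (l : ℕ))) ^ j) =
        ∑ j ∈ range (m + 1), ∑ k : Fin (m + 1), ∑ l : Fin (m + 1),
        z k * z l * (c j * (ε * ((2 : ℝ) ^ (k : ℕ) * 2 ^ (l : ℕ))) ^ j) := by
      simp only [mul_sum]
      exact (sum_congr rfl fun k _ => sum_comm).trans sum_comm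
    rw [e2, sum_congr rfl fun j _ => e1 j, sum_range_succ']
    rw [sum_eq_zero fun j hj => ?_]
    · simp [hc0]
    · rw [mem_range] at hj
      rw [hz (j + 1) (by omega) (by omega)]
      simp
  · have e : ∀ k : Fin (m + 1), ∑ l : Fin (m + 1),
        |z k| * |z l| * (|C| * (ε * 4 ^ m) ^ (m + 1)) =
        |z k| * ((∑ l, |z l|) * (|C| * (ε * 4 ^ m) ^ (m + 1))) := by
      intro k
      rw [sum_mul, mul_sum]
      refine sum_congr rfl fun l _ => ?_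
      ring
    simp only [e]
    rw [← sum_mul, mul_pow]
    ring

end Pool.Agent.E8helper57.CE
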