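import Pool.Agent.E8helper57.CE.Lower

/-!
# Lower bound for the critical exponent of a graph containing `K_{m+3}^{(1)}`
-/

set_option autoImplicit false

open Matrix Finset

namespace Pool.Agent.E8helper57.CE

/-- first coordinates -/
def va (m : ℕ) : Fin (m + 1) ⊕ Fin 2 → ℝ := Sum.elim (fun _ => 1) ![1, 0]

/-- second coordinates -/
noncomputable def vb (m : ℕ) (ε : ℝ) : Fin (m + 1) ⊕ Fin 2 → ℝ :=
  Sum.elim (fun k => Real.sqrt ε * 2 ^ (k : ℕ)) ![0, 1]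

/-- the test vector -/
noncomputable def tv (m : ℕ) (ε β : ℝ) (z : Fin (m + 1) → ℝ) : Fin (m + 1) ⊕ Fin 2 → ℝ :=
  Sum.elim z ![- ∑ k, z k, - ε ^ (β / 2)]

theorem exists_eps (m : ℕ) (β C : ℝ) (hβ : β < m + 1) :
    ∃ ε : ℝ, 0 < ε ∧ ε * (4 : ℝ) ^ m ≤ 1 ∧ C * ε ^ (m + 1) < ε ^ β := by
  have hγ : 0 < (m : ℝ) + 1 - β := by linarith
  have h1 : Filter.Tendsto (fun ε : ℝ => C * ε ^ ((m : ℝ) + 1 - β)) (nhdsWithin 0 (Set.Ioi 0))
      (nhds 0) := by
    have h : Filter.Tendsto (fun ε : ℝ => C * ε ^ ((m : ℝ) + 1 - β)) (nhds 0)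
        (nhds (C * 0 ^ ((m : ℝ) + 1 - β))) :=
      ((Real.continuousAt_rpow_const 0 _ (Or.inr hγ.le)).const_mul C)
    rw [Real.zero_rpow hγ.ne', mul_zero] at h
    exact h.mono_left nhdsWithin_le_nhds
  have h2 : Filter.Tendsto (fun ε : ℝ => ε * (4 : ℝ) ^ m) (nhdsWithin 0 (Set.Ioi 0))
      (nhds 0) := by
    have h : Filter.Tendsto (fun ε : ℝ => ε * (4 : ℝ) ^ m) (nhds 0) (nhds (0 * (4 : ℝ) ^ m)) :=
      (continuous_id.mul continuous_const).tendsto 0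
    rw [zero_mul] at h
    exact h.mono_left nhdsWithin_le_nhds
  have e1 := h1.eventually (gt_mem_nhds one_pos)
  have e2 := h2.eventually (gt_mem_nhds one_pos)
  have e3 : ∀ᶠ ε : ℝ in nhdsWithin 0 (Set.Ioi 0), 0 < ε := self_mem_nhdsWithin
  obtain ⟨ε, h1, h2, h3⟩ := (e1.and (e2.and e3)).exists
  refine ⟨ε, h3, h2.le, ?_⟩
  have h4 : ε ^ (m + 1) = ε ^ ((m : ℝ) + 1 - β) * ε ^ β := by
    rw [← Real.rpow_add h3, sub_add_cancel]
    exact_mod_cast (Real.rpow_natCast ε (m + 1)).symm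
  rw [h4, ← mul_assoc]
  have : 0 < ε ^ β := Real.rpow_pos_of_pos h3 _
  nlinarith

theorem tv_form (m : ℕ) (ε β : ℝ) (z : Fin (m + 1) → ℝ) (hε : 0 < ε)
    (hz : ∑ k, z k * ((2 : ℝ) ^ (k : ℕ)) ^ β = 1) :
    qf (Matrix.of fun i j => hpow (va m i * va m j + vb m ε i * vb m ε j) β) (tv m ε β z) =
      ∑ k, ∑ l, z k * z l * (1 + ε * ((2 : ℝ) ^ (k : ℕ) * 2 ^ (l : ℕ))) ^ β -
        (∑ k, z k) ^ 2 - ε ^ β := by
  have hs : 0 < Real.sqrt ε := Real.sqrt_pos.2 hε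
  have hss : Real.sqrt ε * Real.sqrt ε = ε := Real.mul_self_sqrt hε.le
  have e1 : ∀ k l : Fin (m + 1), hpow (va m (Sum.inl k) * va m (Sum.inl l) +
      vb m ε (Sum.inl k) * vb m ε (Sum.inl l)) β =
      (1 + ε * ((2 : ℝ) ^ (k : ℕ) * 2 ^ (l : ℕ))) ^ β := by
    intro k l
    simp only [va, vb, Sum.elim_inl]
    have e : (1 : ℝ) * 1 + Real.sqrt ε * 2 ^ (k : ℕ) * (Real.sqrt ε * 2 ^ (l : ℕ)) =
        1 + ε * ((2 : ℝ) ^ (k : ℕ) * 2 ^ (l : ℕ)) := by
      linear_combination ((2 : ℝ) ^ (k : ℕ) * 2 ^ (l : ℕ)) * hss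
    rw [e, hpow, if_neg (by positivity)]
  have hsb : Real.sqrt ε ^ β = ε ^ (β / 2) := by
    rw [Real.sqrt_eq_rpow, ← Real.rpow_mul hε.le]
    congr 1
    ring
  have e2 : ∀ k : Fin (m + 1), hpow (va m (Sum.inl k) * va m (Sum.inr 0) +
      vb m ε (Sum.inl k) * vb m ε (Sum.inr 0)) β = 1 := by
    intro k
    simp [va, vb, hpow]
  have e2' : ∀ k : Fin (m + 1), hpow (va m (Sum.inr 0) * va m (Sum.inl k) +
      vb m ε (Sum.inr 0) * vb m ε (Sum.inl k)) β = 1 := by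
    intro k
    simp [va, vb, hpow]
  have e3 : ∀ k : Fin (m + 1), hpow (va m (Sum.inl k) * va m (Sum.inr 1) +
      vb m ε (Sum.inl k) * vb m ε (Sum.inr 1)) β = ε ^ (β / 2) * ((2 : ℝ) ^ (k : ℕ)) ^ β := by
    intro k
    simp only [va, vb, Sum.elim_inl, Sum.elim_inr, Matrix.cons_val_one, Matrix.cons_val_zero,
      mul_zero, zero_add, mul_one]
    rw [hpow, if_neg (by positivity), Real.mul_rpow hs.le (by positivity), hsb]
  have e3' : ∀ k : Fin (m + 1), hpow (va m (Sum.inr 1) * va m (Sum.inl k) +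
      vb m ε (Sum.inr 1) * vb m ε (Sum.inl k)) β = ε ^ (β / 2) * ((2 : ℝ) ^ (k : ℕ)) ^ β := by
    intro k
    rw [← e3 k, mul_comm (va m (Sum.inr 1)), mul_comm (vb m ε (Sum.inr 1))]
  have e4 : hpow (va m (Sum.inr 0) * va m (Sum.inr 0) +
      vb m ε (Sum.inr 0) * vb m ε (Sum.inr 0)) β = 1 := by
    simp [va, vb, hpow]
  have e5 : hpow (va m (Sum.inr 1) * va m (Sum.inr 1) +
      vb m ε (Sum.inr 1) * vb m ε (Sum.inr 1)) β = 1 := by
    simp [va, vb, hpow]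
  have e6 : hpow (va m (Sum.inr 0) * va m (Sum.inr 1) +
      vb m ε (Sum.inr 0) * vb m ε (Sum.inr 1)) β = 0 := by
    simp [va, vb, hpow]
  have e6' : hpow (va m (Sum.inr 1) * va m (Sum.inr 0) +
      vb m ε (Sum.inr 1) * vb m ε (Sum.inr 0)) β = 0 := by
    simp [va, vb, hpow]
  have t0 : ∀ k, tv m ε β z (Sum.inl k) = z k := fun k => rfl
  have t1 : tv m ε β z (Sum.inr 0) = - ∑ k, z k := by simp [tv]
  have t2 : tv m ε β z (Sum.inr 1) = - ε ^ (β / 2) := by simp [tv]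
  have hεβ : ε ^ (β / 2) * ε ^ (β / 2) = ε ^ β := by
    rw [← Real.rpow_add hε]
    congr 1
    ring
  unfold qf
  simp only [Fintype.sum_sum_type, of_apply, Fin.sum_univ_two, e1, e2, e2', e3, e3', e4, e5, e6,
    e6', t0, t1, t2, sum_add_distrib]
  have s1 : ∑ k : Fin (m + 1), ∑ l : Fin (m + 1),
      z k * (1 + ε * ((2 : ℝ) ^ (k : ℕ) * 2 ^ (l : ℕ))) ^ β * z l =
      ∑ k, ∑ l, z k * z l * (1 + ε * ((2 : ℝ) ^ (k : ℕ) * 2 ^ (l : ℕ))) ^ β :=
    sum_congr rfl fun k _ => sum_congr rfl fun l _ => by ring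
  have s2 : ∑ k : Fin (m + 1), z k * (1 : ℝ) * - ∑ k, z k = - (∑ k, z k) ^ 2 := by
    rw [← sum_mul]
    simp only [mul_one]
    ring
  have s2' : ∑ k : Fin (m + 1), (- ∑ k, z k) * (1 : ℝ) * z k = - (∑ k, z k) ^ 2 := by
    rw [← mul_sum]
    ring
  have s3 : ∑ k : Fin (m + 1), z k * (ε ^ (β / 2) * ((2 : ℝ) ^ (k : ℕ)) ^ β) * - ε ^ (β / 2) =
      - ε ^ β := by
    have : ∀ k : Fin (m + 1), z k * (ε ^ (β / 2) * ((2 : ℝ) ^ (k : ℕ)) ^ β) * - ε ^ (β / 2) =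
        - ε ^ β * (z k * ((2 : ℝ) ^ (k : ℕ)) ^ β) := by
      intro k
      rw [← hεβ]
      ring
    simp only [this]
    rw [← mul_sum, hz, mul_one]
  have s3' : ∑ k : Fin (m + 1), - ε ^ (β / 2) * (ε ^ (β / 2) * ((2 : ℝ) ^ (k : ℕ)) ^ β) * z k =
      - ε ^ β := by
    rw [← s3]
    refine sum_congr rfl fun k _ => by ring
  rw [s1, s2, s2', s3, s3']
  have := hεβ
  linear_combination hεβ

theorem lower {V : Type} [Fintype V] [DecidableEq V] (G : SimpleGraph V) (m : ℕ)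
    (g : Fin (m + 1) ⊕ Fin 2 → V) (hg : Function.Injective g)
    (hadj : ∀ a b, a ≠ b → ¬ (a = Sum.inr 0 ∧ b = Sum.inr 1) →
      ¬ (a = Sum.inr 1 ∧ b = Sum.inr 0) → G.Adj (g a) (g b))
    (α : ℝ) (hα : α ∈ PowSet G) : (m + 1 : ℝ) ≤ α := by
  by_contra hlt
  push Not at hlt
  obtain ⟨β, hβα, hmβ, hβm⟩ : ∃ β : ℝ, α ≤ β ∧ (m : ℝ) < β ∧ β < m + 1 :=
    ⟨max α (m + 1 / 2), le_max_left _ _, lt_of_lt_of_le (by linarith) (le_max_right _ _),
      max_lt hlt (by linarith)⟩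
  obtain ⟨z, hz, hz1⟩ := exists_z m β hmβ
  obtain ⟨C, hC0, hC⟩ := form_le m β z hz
  obtain ⟨ε, hε, hε1, hε2⟩ := exists_eps m β C hβm
  set a : V → ℝ := Function.extend g (va m) 0 with ha
  set b : V → ℝ := Function.extend g (vb m ε) 0 with hb
  have hag : ∀ p, a (g p) = va m p := fun p => hg.extend_apply _ _ _
  have hbg : ∀ p, b (g p) = vb m ε p := fun p => hg.extend_apply _ _ _
  have hva0 : ∀ p, 0 ≤ va m p := by
    rintro (k | q)
    · simp [va]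
    · fin_cases q <;> simp [va]
  have hvb0 : ∀ p, 0 ≤ vb m ε p := by
    rintro (k | q)
    · simp only [vb, Sum.elim_inl]
      positivity
    · fin_cases q <;> simp [vb]
  have ha' : ∀ i, (¬ ∃ p, g p = i) → a i = 0 := fun i hi => by
    rw [ha, Function.extend_apply' _ _ _ hi]
    rfl
  have hb' : ∀ i, (¬ ∃ p, g p = i) → b i = 0 := fun i hi => by
    rw [hb, Function.extend_apply' _ _ _ hi]
    rfl
  have ha0 : ∀ i, 0 ≤ a i := by
    intro i
    by_cases hi : ∃ p, g p = i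
    · obtain ⟨p, rfl⟩ := hi
      rw [hag]
      exact hva0 p
    · rw [ha' i hi]
  have hb0 : ∀ i, 0 ≤ b i := by
    intro i
    by_cases hi : ∃ p, g p = i
    · obtain ⟨p, rfl⟩ := hi
      rw [hbg]
      exact hvb0 p
    · rw [hb' i hi]
  set A : Matrix V V ℝ := Matrix.of fun i j => a i * a j + b i * b j with hA
  have hApsd : A.PosSemidef := by
    rw [psd_iff]
    refine ⟨fun i j => by simp only [hA, of_apply]; ring, fun w => ?_⟩
    have : qf A w = (∑ i, a i * w i) ^ 2 + (∑ i, b i * w i) ^ 2 := by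
      unfold qf
      rw [sq, sq, sum_mul_sum, sum_mul_sum, ← sum_add_distrib]
      refine sum_congr rfl fun i _ => ?_
      rw [← sum_add_distrib]
      refine sum_congr rfl fun j _ => ?_
      simp only [hA, of_apply]
      ring
    rw [this]
    positivity
  have hAmem : A ∈ PG0 G := by
    refine ⟨⟨hApsd, fun i j hij hna => ?_⟩, fun i j => ?_⟩
    · by_cases hi : ∃ p, g p = i
      · by_cases hj : ∃ q, g q = j
        · obtain ⟨p, rfl⟩ := hi
          obtain ⟨q, rfl⟩ := hj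
          have hpq : p ≠ q := fun h => hij (by rw [h])
          simp only [hA, of_apply, hag, hbg]
          by_cases c1 : p = Sum.inr 0 ∧ q = Sum.inr 1
          · obtain ⟨rfl, rfl⟩ := c1
            simp [va, vb]
          · by_cases c2 : p = Sum.inr 1 ∧ q = Sum.inr 0
            · obtain ⟨rfl, rfl⟩ := c2
              simp [va, vb]
            · exact absurd (hadj p q hpq c1 c2) hna
        · simp [hA, ha' j hj, hb' j hj]
      · simp [hA, ha' i hi, hb' i hi]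
    · exact add_nonneg (mul_nonneg (ha0 i) (ha0 j)) (mul_nonneg (hb0 i) (hb0 j))
  have hpsd := (hα A hAmem β hβα).1.submatrix g
  have e : (hadPow A β).submatrix g g =
      Matrix.of fun i j => hpow (va m i * va m j + vb m ε i * vb m ε j) β := by
    ext p q
    simp only [submatrix_apply, hadPow, of_apply, hA, hag, hbg]
  rw [e, psd_iff] at hpsd
  have h1 := hpsd.2 (tv m ε β z)
  rw [tv_form m ε β z hε hz1] at h1
  have h2 := hC ε hε hε1
  linarith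

end Pool.Agent.E8helper57.CE
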