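import Pool.Agent.E8helper57.CE.Final

/-!
# Mixed exponents: cones, vertex deletion, cut vertices
-/

set_option autoImplicit false

open Matrix Finset

namespace Pool.Agent.E8helper57.CE

/-- `B ∘ M^{∘δ}` is positive semidefinite for all `B ∈ ℙ_G([0,∞))`, all positive semidefinite
matrices `M` with nonnegative entries and all real `δ ≥ c` -/
def Mixed {V : Type} (G : SimpleGraph V) (c : ℝ) : Prop :=
  ∀ B ∈ PG0 G, ∀ M : Matrix V V ℝ, M.PosSemidef → (∀ i j, 0 ≤ M i j) → ∀ δ : ℝ, c ≤ δ →
    (Matrix.of fun i j => B i j * M i j ^ δ : Matrix V V ℝ).PosSemidef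

/-- graphs built from bipartite graphs by adding vertices and by gluing at cut vertices; `n` counts
the nested additions of vertices -/
inductive Built {V : Type} : ℕ → SimpleGraph V → Prop
  | bipartite (G : SimpleGraph V) (col : V → Bool) (h : ∀ i j, G.Adj i j → col i ≠ col j) :
      Built 0 G
  | mono (n m : ℕ) (G : SimpleGraph V) (h : n ≤ m) (hG : Built n G) : Built m G
  | vertex (n : ℕ) (G : SimpleGraph V) (a : V) (hG : Built n (G.deleteIncidenceSet a)) :
      Built (n + 1) G
  | glue (n : ℕ) (G₁ G₂ : SimpleGraph V) (S : Set V) (a : V)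
      (h₁ : ∀ i j, G₁.Adj i j → i ∈ S ∨ i = a) (h₂ : ∀ i j, G₂.Adj i j → i ∉ S ∨ i = a)
      (hG₁ : Built n G₁) (hG₂ : Built n G₂) : Built n (G₁ ⊔ G₂)

section

variable {V : Type} [Fintype V]

omit [Fintype V] in
theorem mixed_mono {G : SimpleGraph V} {c d : ℝ} (h : c ≤ d) (hG : Mixed G c) : Mixed G d :=
  fun B hB M hM hM0 δ hδ => hG B hB M hM hM0 δ (h.trans hδ)

theorem mixed_bipartite (G : SimpleGraph V) (col : V → Bool)
    (h : ∀ i j, G.Adj i j → col i ≠ col j) : Mixed G 0 := by
  rintro B ⟨⟨hB, hpat⟩, hB0⟩ M hM hM0 δ hδ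
  exact base (col := col) hB hB0 (fun i j _ _ hij hc => hpat i j hij fun hh => h i j hh hc)
    hM hM0 hδ

theorem mixed_vertex (G : SimpleGraph V) (a : V) {c : ℝ} (hc : 0 ≤ c)
    (hG : Mixed (G.deleteIncidenceSet a) c) : Mixed G (c + 1) := by
  classical
  rintro B ⟨⟨hB, hpat⟩, hB0⟩ M hM hM0 δ hδ
  refine step (K := ∅) (col := fun _ => true) (a := a) (by linarith) ?_ hB hB0 hM hM0
  intro M' ε hM' hM0' hε
  refine hG (bar a B) ⟨⟨bar_psd hB a, fun i j hij hna => ?_⟩, bar_nonneg hB0 a⟩ M' hM' hM0' ε
    (by linarith)
  simp only [bar, of_apply]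
  split_ifs with hh
  · rfl
  · push Not at hh
    refine hpat i j hij fun hadj => hna ?_
    rw [SimpleGraph.deleteIncidenceSet_adj]
    exact ⟨hadj, hh.1, hh.2⟩

theorem psd_option {A : Matrix (Option V) (Option V) ℝ} (h1 : ∀ j, A none j = 0)
    (h2 : ∀ i, A i none = 0) (h : (A.submatrix some some).PosSemidef) : A.PosSemidef := by
  obtain ⟨s1, s2⟩ := (psd_iff _).1 h
  rw [psd_iff]
  refine ⟨?_, fun z => ?_⟩
  · rintro (_ | i) (_ | j)
    · rfl
    · rw [h1, h2]
    · rw [h1, h2]
    · exact s1 i j
  · refine (s2 fun i => z (some i)).trans (le_of_eq ?_)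
    unfold qf
    rw [Fintype.sum_option]
    simp only [Fintype.sum_option, h1, h2, mul_zero, zero_mul, sum_const_zero, zero_add,
      submatrix_apply]

theorem mixed_cone (G : SimpleGraph V) {c : ℝ} (hc : 0 ≤ c) (hG : Mixed G c) :
    Mixed (cone G) (c + 1) := by
  classical
  rintro B ⟨⟨hB, hpat⟩, hB0⟩ M hM hM0 δ hδ
  refine step (K := ∅) (col := fun _ => true) (a := none) (by linarith) ?_ hB hB0 hM hM0
  intro M' ε hM' hM0' hε
  refine psd_option (fun j => by simp [bar]) (fun i => by simp [bar]) ?_
  have h := hG (B.submatrix some some) ⟨⟨hB.submatrix some, fun i j hij hna => ?_⟩,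
    fun i j => hB0 _ _⟩ (M'.submatrix some some) (hM'.submatrix some) (fun i j => hM0' _ _) ε
    (by linarith)
  · convert h using 1
    ext i j
    simp [bar]
  · exact hpat (some i) (some j) (by simpa using hij) hna

/-- the part of `B` on `a` and `P`, with the diagonal entry of `a` replaced by `t` -/
def part [DecidableEq V] (P : V → Prop) [DecidablePred P] (a : V) (t : ℝ) (B : Matrix V V ℝ) :
    Matrix V V ℝ :=
  Matrix.of fun i j => if i = a ∧ j = a then t else
    if (i = a ∨ P i) ∧ (j = a ∨ P j) then B i j else 0

theorem part_psd [DecidableEq V] (P : V → Prop) [DecidablePred P] (a : V) (t : ℝ)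
    {B : Matrix V V ℝ} (hB : B.PosSemidef)
    (ht : ∀ z : V → ℝ, 0 ≤ qf B (fun i => if i = a then 1 else if P i then z i else 0) -
      B a a + t) : (part P a t B).PosSemidef := by
  obtain ⟨b1, b2⟩ := (psd_iff B).1 hB
  rw [psd_iff]
  refine ⟨fun i j => ?_, fun z => ?_⟩
  · simp only [part, of_apply]
    by_cases hi : i = a <;> by_cases hj : j = a <;> by_cases hPi : P i <;> by_cases hPj : P j <;>
      simp [hi, hj, hPi, hPj, b1 i j, b1 a j, b1 i a]
  · have key : qf (part P a t B) z =
        qf B (fun i => if i = a ∨ P i then z i else 0) + (t - B a a) * z a ^ 2 := by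
      have e : (t - B a a) * z a ^ 2 =
          ∑ i, ∑ j, if i = a then (if j = a then (t - B a a) * z a ^ 2 else 0) else 0 := by
        rw [sum_eq_single a, sum_eq_single a]
        · simp
        · intro j _ hj
          simp [hj]
        · simp
        · intro i _ hi
          simp [hi]
        · simp
      rw [e]
      unfold qf
      rw [← sum_add_distrib]
      refine sum_congr rfl fun i _ => ?_
      rw [← sum_add_distrib]
      refine sum_congr rfl fun j _ => ?_
      simp only [part, of_apply]
      by_cases hi : i = a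
      · by_cases hj : j = a
        · subst hi
          subst hj
          simp only [and_self, true_or, if_true]
          ring
        · by_cases hPj : P j <;> simp [hi, hj, hPj]
      · by_cases hPi : P i <;> by_cases hj : j = a <;> by_cases hPj : P j <;>
          simp [hi, hj, hPi, hPj]
    rw [key]
    by_cases hz : z a = 0
    · rw [hz]
      have := b2 (fun i => if i = a ∨ P i then z i else 0)
      simpa using this
    · have h := ht fun i => z i / z a
      have e : qf B (fun i => if i = a ∨ P i then z i else 0) =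
          z a ^ 2 * qf B (fun i => if i = a then 1 else if P i then z i / z a else 0) := by
        unfold qf
        rw [mul_sum]
        refine sum_congr rfl fun i _ => ?_
        rw [mul_sum]
        refine sum_congr rfl fun j _ => ?_
        have e1 : ∀ i, (if i = a ∨ P i then z i else 0) =
            z a * (if i = a then 1 else if P i then z i / z a else 0) := by
          intro i
          by_cases hi : i = a
          · simp [hi]
          · by_cases hPi : P i
            · simp only [hi, hPi, or_true, if_true, if_false]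
              field_simp
            · simp [hi, hPi]
        beta_reduce
        rw [e1 i, e1 j]
        ring
      rw [e]
      have := mul_nonneg (sq_nonneg (z a)) h
      linarith

theorem mixed_glue (G₁ G₂ : SimpleGraph V) (S : Set V) (a : V)
    (h₁ : ∀ i j, G₁.Adj i j → i ∈ S ∨ i = a) (h₂ : ∀ i j, G₂.Adj i j → i ∉ S ∨ i = a)
    {c : ℝ} (m₁ : Mixed G₁ c) (m₂ : Mixed G₂ c) : Mixed (G₁ ⊔ G₂) c := by
  classical
  rintro B ⟨⟨hB, hpat⟩, hB0⟩ M hM hM0 δ hδ
  obtain ⟨b1, b2⟩ := (psd_iff B).1 hB
  let P : V → Prop := fun i => i ∈ S ∧ i ≠ a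
  let Q : V → Prop := fun i => i ∉ S ∧ i ≠ a
  have hPQ : ∀ i j, P i → Q j → B i j = 0 := by
    rintro i j ⟨hi, hia⟩ ⟨hj, hja⟩
    refine hpat i j (fun h => hj (h ▸ hi)) ?_
    rw [SimpleGraph.sup_adj]
    rintro (h | h)
    · rcases h₁ j i h.symm with h | h
      · exact hj h
      · exact hja h
    · rcases h₂ i j h with h | h
      · exact h hi
      · exact hia h
  let f : (V → ℝ) → ℝ := fun z =>
    B a a - qf B (fun i => if i = a then 1 else if P i then z i else 0)
  let h : (V → ℝ) → ℝ := fun w => qf B (fun i => if i = a then 1 else if Q i then w i else 0)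
  have hfh : ∀ z w, f z ≤ h w := by
    intro z w
    have hu := b2 (fun i => if i = a then 1 else if P i then z i else w i)
    have e : qf B (fun i => if i = a then 1 else if P i then z i else w i) = h w - f z := by
      have e0 : B a a = ∑ i, ∑ j, if i = a then (if j = a then B a a else 0) else 0 := by
        rw [sum_eq_single a, sum_eq_single a]
        · simp
        · intro j _ hj
          simp [hj]
        · simp
        · intro i _ hi
          simp [hi]
        · simp
      simp only [f, h]
      rw [sub_sub_eq_add_sub, eq_sub_iff_add_eq]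
      nth_rewrite 1 [e0]
      unfold qf
      rw [← sum_add_distrib, ← sum_add_distrib]
      refine sum_congr rfl fun i _ => ?_
      rw [← sum_add_distrib, ← sum_add_distrib]
      refine sum_congr rfl fun j _ => ?_
      by_cases hi : i = a
      · by_cases hj : j = a
        · subst hi
          subst hj
          simp
        · by_cases hSj : j ∈ S
          · simp [P, Q, hi, hj, hSj]
          · simp [P, Q, hi, hj, hSj]
      · by_cases hj : j = a
        · by_cases hSi : i ∈ S
          · simp [P, Q, hi, hj, hSi]
          · simp [P, Q, hi, hj, hSi]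
        · by_cases hSi : i ∈ S
          · by_cases hSj : j ∈ S
            · simp [P, Q, hi, hj, hSi, hSj]
            · have : B i j = 0 := hPQ i j ⟨hSi, hi⟩ ⟨hSj, hj⟩
              simp [this, hi]
          · by_cases hSj : j ∈ S
            · have : B i j = 0 := by
                rw [b1]
                exact hPQ j i ⟨hSj, hj⟩ ⟨hSi, hi⟩
              simp [this, hi]
            · simp [P, Q, hi, hj, hSi, hSj]
    rw [e] at hu
    linarith
  obtain ⟨t, ht1, ht2⟩ : ∃ t, (∀ z, f z ≤ t) ∧ ∀ w, t ≤ h w :=
    ⟨sSup (Set.range f), fun z => le_csSup ⟨h 0, by rintro _ ⟨z, rfl⟩; exact hfh z 0⟩ ⟨z, rfl⟩,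
      fun w => csSup_le ⟨_, ⟨0, rfl⟩⟩ (by rintro _ ⟨z, rfl⟩; exact hfh z w)⟩
  have hone : ∀ R : V → Prop, ∀ [DecidablePred R],
      qf B (fun i => if i = a then 1 else if R i then (0 : V → ℝ) i else 0) = B a a := by
    intro R _
    unfold qf
    rw [sum_eq_single a, sum_eq_single a]
    · simp
    · intro j _ hj
      simp [hj]
    · simp
    · intro i _ hi
      refine sum_eq_zero fun j _ => ?_
      simp [hi]
    · simp
  have ht0 : 0 ≤ t := by
    have := ht1 0
    simp only [f] at this
    rw [hone P] at this
    linarith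
  have ht3 : t ≤ B a a := by
    have := ht2 0
    simp only [h] at this
    rw [hone Q] at this
    exact this
  have hp1 : (part P a t B).PosSemidef := part_psd P a t hB fun z => by
    have := ht1 z
    simp only [f] at this
    linarith
  have hp2 : (part Q a (B a a - t) B).PosSemidef := part_psd Q a _ hB fun w => by
    have := ht2 w
    simp only [h] at this
    linarith
  have hn : ∀ (R : V → Prop) [DecidablePred R] (s : ℝ), 0 ≤ s → ∀ i j, 0 ≤ part R a s B i j := by
    intro R _ s hs i j
    simp only [part, of_apply]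
    split_ifs
    · exact hs
    · exact hB0 i j
    · exact le_rfl
  have q1 : part P a t B ∈ PG0 G₁ := by
    refine ⟨⟨hp1, fun i j hij hna => ?_⟩, hn P t ht0⟩
    simp only [part, of_apply]
    split_ifs with c1 c2
    · exact absurd (c1.1.trans c1.2.symm) hij
    · refine hpat i j hij ?_
      rw [SimpleGraph.sup_adj]
      rintro (hh | hh)
      · exact hna hh
      · rcases h₂ i j hh with d1 | d1
        · rcases c2.1 with d2 | d2
          · rcases h₂ j i hh.symm with d3 | d3
            · rcases c2.2 with d4 | d4
              · exact hij (d2.trans d4.symm)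
              · exact d3 d4.1
            · exact hij (d2.trans d3.symm)
          · exact d1 d2.1
        · rcases h₂ j i hh.symm with d3 | d3
          · rcases c2.2 with d4 | d4
            · exact hij (d1.trans d4.symm)
            · exact d3 d4.1
          · exact hij (d1.trans d3.symm)
    · rfl
  have q2 : part Q a (B a a - t) B ∈ PG0 G₂ := by
    refine ⟨⟨hp2, fun i j hij hna => ?_⟩, hn Q _ (by linarith)⟩
    simp only [part, of_apply]
    split_ifs with c1 c2
    · exact absurd (c1.1.trans c1.2.symm) hij
    · refine hpat i j hij ?_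
      rw [SimpleGraph.sup_adj]
      rintro (hh | hh)
      · rcases h₁ i j hh with d1 | d1
        · rcases c2.1 with d2 | d2
          · rcases h₁ j i hh.symm with d3 | d3
            · rcases c2.2 with d4 | d4
              · exact hij (d2.trans d4.symm)
              · exact d4.1 d3
            · exact hij (d2.trans d3.symm)
          · exact d2.1 d1
        · rcases h₁ j i hh.symm with d3 | d3
          · rcases c2.2 with d4 | d4
            · exact hij (d1.trans d4.symm)
            · exact d4.1 d3
          · exact hij (d1.trans d3.symm)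
      · exact hna hh
    · rfl
  have r1 := m₁ _ q1 M hM hM0 δ hδ
  have r2 := m₂ _ q2 M hM hM0 δ hδ
  have e : (Matrix.of fun i j => B i j * M i j ^ δ : Matrix V V ℝ) =
      (Matrix.of fun i j => part P a t B i j * M i j ^ δ) +
      (Matrix.of fun i j => part Q a (B a a - t) B i j * M i j ^ δ) := by
    ext i j
    simp only [of_apply, Matrix.add_apply, ← add_mul]
    congr 1
    simp only [part, of_apply]
    by_cases hi : i = a
    · by_cases hj : j = a
      · subst hi
        subst hj
        simp
      · by_cases hSj : j ∈ S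
        · simp [P, Q, hi, hj, hSj]
        · simp [P, Q, hi, hj, hSj]
    · by_cases hj : j = a
      · by_cases hSi : i ∈ S
        · simp [P, Q, hi, hj, hSi]
        · simp [P, Q, hi, hj, hSi]
      · by_cases hSi : i ∈ S
        · by_cases hSj : j ∈ S
          · simp [P, Q, hi, hj, hSi, hSj]
          · have : B i j = 0 := hPQ i j ⟨hSi, hi⟩ ⟨hSj, hj⟩
            simp [P, Q, this, hi]
        · by_cases hSj : j ∈ S
          · have : B i j = 0 := by
              rw [b1]
              exact hPQ j i ⟨hSj, hj⟩ ⟨hSi, hi⟩
            simp [P, Q, this, hi]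
          · simp [P, Q, hi, hj, hSi, hSj]
  rw [e]
  exact r1.add r2

omit [Fintype V] in
theorem mixed_powSet (G : SimpleGraph V) {c : ℝ} (hG : Mixed G c) :
    c + 1 ∈ PowSet G := by
  rintro A ⟨⟨hpsd, hpat⟩, hnn⟩ β hβ
  have h := hG A ⟨⟨hpsd, hpat⟩, hnn⟩ A hpsd hnn (β - 1) (by linarith)
  have e : hadPow A β = Matrix.of fun i j => A i j * A i j ^ (β - 1) := by
    ext i j
    simp only [hadPow, of_apply, hpow]
    split_ifs with h0
    · rw [h0, zero_mul]
    · have hp : 0 < A i j := lt_of_le_of_ne (hnn i j) (Ne.symm h0)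
      rw [Real.rpow_sub_one h0]
      field_simp
  refine ⟨e ▸ h, fun i j hij hna => ?_⟩
  simp only [hadPow, of_apply, hpow, hpat i j hij hna, if_true]

theorem built_mixed {n : ℕ} {G : SimpleGraph V} (h : Built n G) : Mixed G n := by
  induction h with
  | bipartite G col h =>
    rw [Nat.cast_zero]
    exact mixed_bipartite G col h
  | mono n m G h _ ih => exact mixed_mono (by exact_mod_cast h) ih
  | vertex n G a _ ih =>
    rw [Nat.cast_succ]
    exact mixed_vertex G a (Nat.cast_nonneg n) ih
  | glue n G₁ G₂ S a h₁ h₂ _ _ ih₁ ih₂ => exact mixed_glue G₁ G₂ S a h₁ h₂ ih₁ ih₂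

end

/-- a graph with an odd cycle transversal `K` -/
theorem built_of_transversal {V : Type} [DecidableEq V] (col : V → Bool) : ∀ (n : ℕ)
    (K : Finset V) (G : SimpleGraph V), K.card = n →
    (∀ i j, i ∉ K → j ∉ K → G.Adj i j → col i ≠ col j) → Built n G := by
  intro n
  induction n with
  | zero =>
    intro K G hK h
    rw [card_eq_zero] at hK
    subst hK
    exact Built.bipartite G col fun i j hij => h i j (by simp) (by simp) hij
  | succ n ih =>
    intro K G hK h
    obtain ⟨a, ha⟩ : K.Nonempty := by
      rw [← card_pos]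
      omega
    refine Built.vertex n G a (ih (K.erase a) _ (by rw [card_erase_of_mem ha, hK]; rfl) ?_)
    intro i j hi hj hij
    rw [SimpleGraph.deleteIncidenceSet_adj] at hij
    exact h i j (fun hh => hi (mem_erase.2 ⟨hij.2.1, hh⟩))
      (fun hh => hj (mem_erase.2 ⟨hij.2.2, hh⟩)) hij.1

end Pool.Agent.E8helper57.CE
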